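import Mathlib
import Pool.Agent.H10.CedDefs
import Pool.Agent.H10.EvasDefs
import Pool.Agent.H10.Evas

set_option autoImplicit false

namespace Pool.Agent.Results.MP_1acbfe_co.EvasiveLC

open Pool.Agent.H10.Ced in
/-- A locally constructible triangulated 3-ball that is evasive. -/
theorem result : ∃ B : Cx, IsCx B ∧ IsBall 3 B ∧ LC 3 B ∧ ¬ NonEv B :=
  ⟨_, Pool.Agent.H10.Knot.gen_cx _, Pool.Agent.H10.Evas.ball, Pool.Agent.H10.Evas.lc,
    Pool.Agent.H10.Evas.evasive⟩

end Pool.Agent.Results.MP_1acbfe_co.EvasiveLC
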